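import Pool.Agent.H33.G.R_seed8.H499R2.CL.C

/-! Project DK, ERR: the error of one stage of length at least `(log A)^(1/8)`. -/

set_option autoImplicit false

namespace Pool.Agent.H9.DK

open Pool.Agent.H320R2.PD Pool.Agent.H499R2.ND Finset Filter Topology

theorem err_core : ∃ C t0 : ℝ, 0 < C ∧ 1000 ≤ t0 ∧ ∀ A : ℝ, 0 < A → t0 ≤ Real.log A → ∀ k m m' : ℕ,
    (m : ℝ) ^ 16 ≤ Real.log A → Real.log A ≤ (k : ℝ) ^ 8 → (k : ℝ) ≤ Real.log A / 2 →
    m' = ⌊(0.8 * Real.log A) ^ (1 / 16 : ℝ)⌋₊ → 1 ≤ k ∧ m' ≤ k ∧ Err 1 A k m m' ≤ C / (Real.log A) ^ 3 := by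
  obtain ⟨Cm, hCm, hmix⟩ := mix 64
  refine ⟨2 * (Cm * (2 ^ 64 + 1)) + 3 * ((Nat.factorial 24 : ℕ) * 12800 ^ 24)
    + (|((1 : ℤ) : ℝ)| + 3) * 2 * ((Nat.factorial 3 : ℕ) * 5 ^ 3), 4 ^ 16, by positivity, by norm_num, ?_⟩
  intro A hA ht0 k m m' hm hk2 hk1 hm'
  set t := Real.log A with htdef
  have ht : 1000 ≤ t := le_trans (by norm_num) ht0
  have htpos : 0 < t := by linarith
  have hexpA : Real.exp t = A := Real.exp_log hA
  obtain ⟨s, hs0, hst⟩ : ∃ s : ℝ, 0 ≤ s ∧ s ^ 16 = t := by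
    refine ⟨t ^ (1 / 16 : ℝ), by positivity, ?_⟩
    rw [← Real.rpow_natCast, ← Real.rpow_mul htpos.le]
    norm_num
  have hs4 : 4 ≤ s := by
    have h1 : (4 : ℝ) ^ 16 ≤ s ^ 16 := by rw [hst]; exact ht0
    exact le_of_pow_le_pow_left₀ (by norm_num) hs0 h1
  have hspos : 0 < s := by linarith
  have hms : (m : ℝ) ≤ s := by
    have h1 : (m : ℝ) ^ 16 ≤ s ^ 16 := by rw [hst]; exact hm
    exact le_of_pow_le_pow_left₀ (by norm_num) hs0 h1
  have hks : s ^ 2 ≤ k := by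
    have h1 : (s ^ 2) ^ 8 ≤ (k : ℝ) ^ 8 := by
      rw [← pow_mul]
      norm_num
      rw [hst]
      exact hk2
    exact le_of_pow_le_pow_left₀ (by norm_num) (Nat.cast_nonneg k) h1
  have hkpos : (1 : ℝ) ≤ k := by nlinarith
  have hk1N : 1 ≤ k := by exact_mod_cast hkpos
  -- the floor
  set u := (0.8 * t) ^ (1 / 16 : ℝ) with hu
  have hu0 : 0 ≤ u := by positivity
  have hu16 : u ^ 16 = 0.8 * t := by
    rw [hu, ← Real.rpow_natCast, ← Real.rpow_mul (by positivity)]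
    norm_num
  have hus : u ≤ s := by
    have h1 : u ^ 16 ≤ s ^ 16 := by rw [hst, hu16]; linarith
    exact le_of_pow_le_pow_left₀ (by norm_num) hs0 h1
  have hus2 : 0.98 * s ≤ u := by
    have h1 : (0.98 * s) ^ 16 ≤ u ^ 16 := by
      rw [mul_pow, hst, hu16]
      have : (0.98 : ℝ) ^ 16 ≤ 0.8 := by norm_num
      exact mul_le_mul_of_nonneg_right this htpos.le
    exact le_of_pow_le_pow_left₀ (by norm_num) hu0 h1
  have hm'1 : s / 2 ≤ m' := by
    rw [hm']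
    have := Nat.lt_floor_add_one u
    linarith
  have hm'2 : (m' : ℝ) ≤ s := by
    rw [hm']; exact (Nat.floor_le hu0).trans hus
  have hm'pos : 1 ≤ m' := by
    have : (1 : ℝ) ≤ m' := by linarith
    exact_mod_cast this
  have hm'k : m' ≤ k := by
    have : (m' : ℝ) ≤ k := by nlinarith
    exact_mod_cast this
  refine ⟨hk1N, hm'k, ?_⟩
  have hm2 : (m : ℝ) ^ 2 ≤ t := by
    rcases Nat.eq_zero_or_pos m with h | h
    · rw [h]
      norm_num
      exact htpos.le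
    · have h1 : (1 : ℝ) ≤ m := by exact_mod_cast h
      exact (pow_le_pow_right₀ h1 (by norm_num)).trans hm
  -- exponentially small quantities
  have hexp5 := exp_neg_le 3 (by norm_num : (0 : ℝ) < 5) htpos
  have hkk : (0 : ℝ) < k := by linarith
  have hexpb := exp_neg_le 24 (by norm_num : (0 : ℝ) < 12800) hkk
  have hk24 : t ^ 3 ≤ (k : ℝ) ^ 24 := by
    calc t ^ 3 ≤ ((k : ℝ) ^ 8) ^ 3 := pow_le_pow_left₀ htpos.le hk2 3
      _ = (k : ℝ) ^ 24 := by ring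
  have hexpb' : Real.exp (-(k / 12800 : ℝ)) ≤ ((Nat.factorial 24 : ℕ) * 12800 ^ 24) / t ^ 3 :=
    hexpb.trans (div_le_div_of_nonneg_left (by positivity) (by positivity) hk24)
  have hsmall : (2 : ℝ) ^ (41 * k / 20) * (2 * 3 ^ m / A) ≤ 2 * Real.exp (-(t / 5)) := by
    have h1 := pow_tm_le htpos.le hk1
    have h2 := pow_m_le ht hm2
    have h3 : (2 : ℝ) ^ (41 * k / 20) * (2 * 3 ^ m / A)
        ≤ Real.exp (0.7106 * t) * (2 * Real.exp (0.05 * t) / Real.exp t) := by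
      rw [← hexpA]
      apply mul_le_mul h1 _ (by positivity) (Real.exp_pos _).le
      apply div_le_div_of_nonneg_right _ (Real.exp_pos _).le
      linarith
    have h4 : Real.exp (0.7106 * t) * (2 * Real.exp (0.05 * t) / Real.exp t)
        = 2 * Real.exp (0.7106 * t + 0.05 * t - t) := by
      rw [Real.exp_sub, Real.exp_add]; ring
    rw [h4] at h3
    refine h3.trans ?_
    apply mul_le_mul_of_nonneg_left _ (by norm_num)
    apply Real.exp_le_exp.2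
    linarith
  have hexpsmall : Real.exp (-(t / 5)) ≤ 1 / 2 := by
    have h1 := Real.add_one_le_exp (t / 5)
    rw [Real.exp_neg, inv_eq_one_div]
    apply one_div_le_one_div_of_le (by norm_num)
    linarith
  have hsmall1 : (2 : ℝ) ^ (41 * k / 20) * (2 * 3 ^ m / A) ≤ 1 := by linarith
  have h3mA : 0 ≤ (2 * 3 ^ m / A : ℝ) := by positivity
  have hone : (2 * 3 ^ m / A : ℝ) ≤ 2 * Real.exp (-(t / 5)) := by
    have : (1 : ℝ) ≤ 2 ^ (41 * k / 20) := one_le_pow₀ (by norm_num)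
    nlinarith
  -- mixing
  have hδ := hmix k m m' (3 * k) hk1N hm'pos hm'k (le_refl _)
  set δ := ∑ T ∈ range (k * (3 * k) + 1), dev (FWT (3 * k) k T) wwt (fun w => (Wo w : ℤ)) (k + m) m'
    with hδdef
  have hδnn : 0 ≤ δ := sum_nonneg fun _ _ => sum_nonneg fun _ _ => abs_nonneg _
  have hδ2 : δ ≤ (Cm * (2 ^ 64 + 1)) / t ^ 3 := by
    have e1 : ((k : ℝ) + m) ≤ t := by
      have h1 : s ≤ s ^ 2 := by nlinarith
      have h2 : (m : ℝ) ≤ t / 2 := by linarith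
      linarith
    have e2 : (1 / (m' : ℝ)) ^ 64 ≤ (2 / s) ^ 64 := by
      apply pow_le_pow_left₀ (by positivity)
      rw [div_le_div_iff₀ (by exact_mod_cast hm'pos) hspos]
      linarith
    have e3 : ((m : ℝ) / k) ^ 64 ≤ (1 / s) ^ 64 := by
      apply pow_le_pow_left₀ (by positivity)
      rw [div_le_div_iff₀ hkk hspos]
      nlinarith
    have e4 : t * (Cm * ((2 / s) ^ 64 + (1 / s) ^ 64)) = (Cm * (2 ^ 64 + 1)) / t ^ 3 := by
      have h1 : s ^ 64 = t * t ^ 3 := by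
        rw [← hst]; ring
      rw [div_pow, div_pow, h1, one_pow]
      field_simp
    calc δ ≤ (k + m) * (Cm * ((1 / (m' : ℝ)) ^ 64 + ((m : ℝ) / k) ^ 64)) := hδ
      _ ≤ t * (Cm * ((2 / s) ^ 64 + (1 / s) ^ 64)) := by
          refine mul_le_mul e1 (mul_le_mul_of_nonneg_left (add_le_add e2 e3) hCm.le) ?_ htpos.le
          exact mul_nonneg hCm.le (add_nonneg (pow_nonneg (div_nonneg zero_le_one (Nat.cast_nonneg _)) _)
            (pow_nonneg (div_nonneg (Nat.cast_nonneg _) (Nat.cast_nonneg _)) _))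
      _ = _ := e4
  -- mass
  have hmass := mass_GW k
  unfold Err
  rw [← hδdef]
  have hd0 : 0 ≤ |((1 : ℤ) : ℝ)| := abs_nonneg _
  have f1 : (1 + 2 ^ (41 * k / 20) * (2 * 3 ^ m / A)) * δ ≤ 2 * δ :=
    mul_le_mul_of_nonneg_right (by linarith) hδnn
  have f2 : (1 + (|((1 : ℤ) : ℝ)| + 2) * 2 ^ (41 * k / 20)) * (2 * 3 ^ m / A)
      ≤ (|((1 : ℤ) : ℝ)| + 3) * (2 * Real.exp (-(t / 5))) := by
    calc (1 + (|((1 : ℤ) : ℝ)| + 2) * 2 ^ (41 * k / 20)) * (2 * 3 ^ m / A)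
        = (2 * 3 ^ m / A) + (|((1 : ℤ) : ℝ)| + 2) * (2 ^ (41 * k / 20) * (2 * 3 ^ m / A)) := by ring
      _ ≤ 2 * Real.exp (-(t / 5)) + (|((1 : ℤ) : ℝ)| + 2) * (2 * Real.exp (-(t / 5))) := by
          have := mul_le_mul_of_nonneg_left hsmall (by linarith : 0 ≤ |((1 : ℤ) : ℝ)| + 2)
          linarith
      _ = _ := by ring
  have f3 : (|((1 : ℤ) : ℝ)| + 3) * (2 * Real.exp (-(t / 5)))
      ≤ (|((1 : ℤ) : ℝ)| + 3) * (2 * (((Nat.factorial 3 : ℕ) * 5 ^ 3) / t ^ 3)) := by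
    apply mul_le_mul_of_nonneg_left _ (by linarith)
    linarith
  have f4 : 3 * Real.exp (-(k / 12800 : ℝ)) ≤ 3 * (((Nat.factorial 24 : ℕ) * 12800 ^ 24) / t ^ 3) := by
    linarith
  calc (1 + 2 ^ (41 * k / 20) * (2 * 3 ^ m / A)) * δ
      + (1 - ∑ w ∈ GW (3 * k) k ((39 * k + 19) / 20) (41 * k / 20), wwt w)
      + (1 + (|((1 : ℤ) : ℝ)| + 2) * 2 ^ (41 * k / 20)) * (2 * 3 ^ m / A)
      ≤ 2 * ((Cm * (2 ^ 64 + 1)) / t ^ 3)
        + 3 * (((Nat.factorial 24 : ℕ) * 12800 ^ 24) / t ^ 3)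
        + (|((1 : ℤ) : ℝ)| + 3) * (2 * (((Nat.factorial 3 : ℕ) * 5 ^ 3) / t ^ 3)) := by
        linarith
    _ = _ := by ring

end Pool.Agent.H9.DK
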